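import Pool.Agent.Helper4.CspVerifier
import Pool.Agent.Helper69.TM.Equiv
import Pool.Agent.Helper69.GridSim
import Pool.Agent.Helper96.Univ
import Pool.Agent.Helper20.Flip.Lang

/-!
# NP-hardness of SUBSET SUM (module FLIP-SUBSUM of MP_bfe50c_lc)
-/

set_option autoImplicit false
set_option linter.all false

namespace Pool.Agent.Helper20.Flip

open Pool.Agent.Helper96

namespace SubSum

/-! ### values of bit lists -/

theorem val_append (l m : List Bool) : val (l ++ m) = val l + 2 ^ l.length * val m := by
  induction l with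
  | nil => simp [val]
  | cons b l ih =>
    rw [List.cons_append, val, val, ih, List.length_cons, pow_succ]
    ring

theorem val_rep_false (n : ℕ) : val (List.replicate n false) = 0 := by
  induction n with
  | zero => rfl
  | succ n ih => rw [List.replicate_succ, val, ih]; simp

theorem val_rep_true (n : ℕ) : val (List.replicate n true) + 1 = 2 ^ n := by
  induction n with
  | zero => rfl
  | succ n ih => rw [List.replicate_succ, val, pow_succ, ← ih]; simp; ring

theorem val_pow (a : ℕ) : val (List.replicate a false ++ [true]) = 2 ^ a := by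
  rw [val_append, val_rep_false, List.length_replicate]
  simp [val]

theorem val_copow {a m : ℕ} (h : a ≤ m) :
    val (List.replicate a false ++ List.replicate (m - a) true) + 2 ^ a = 2 ^ m := by
  rw [val_append, val_rep_false, List.length_replicate, Nat.zero_add]
  have h1 := val_rep_true (m - a)
  have h2 : 2 ^ m = 2 ^ a * 2 ^ (m - a) := by rw [← pow_add]; congr 1; omega
  rw [h2, ← h1]
  ring

/-! ### the digits -/

/-- cells -/
abbrev Cl := ℕ × ℕ
/-- constraints `(p, q, p')` -/
abbrev Cn := Cl × ℕ × Cl
/-- variables `(p, κ)` -/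
abbrev Vr := Cl × List ℕ

def dig (m : ℕ) (v : Vr) (e : Cn) : List Bool :=
  bif decide (e.2.1 = 0) then (bif decide (v.1 = e.1) then [true] else [])
  else bif decide (v.1 = e.2.2) then List.replicate (v.2.getD 0 0) false ++ [true]
  else bif decide (v.1 = e.1) then
    List.replicate (v.2.getD e.2.1 0) false ++ List.replicate (m - v.2.getD e.2.1 0) true
  else []

def tgt (m : ℕ) (e : Cn) : List Bool :=
  bif decide (e.2.1 = 0) then [true] else List.replicate m false ++ [true]

def pad (b : ℕ) (l : List Bool) : List Bool := l ++ List.replicate (b - l.length) false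

theorem val_pad (b : ℕ) (l : List Bool) : val (pad b l) = val l := by
  unfold pad
  rw [val_append, val_rep_false]; simp

theorem length_pad {b : ℕ} {l : List Bool} (h : l.length ≤ b) : (pad b l).length = b := by
  unfold pad
  rw [List.length_append, List.length_replicate]; omega

/-- the number of a variable -/
def num (m b : ℕ) (es : List Cn) (v : Vr) : List Bool := es.flatMap fun e => pad b (dig m v e)

/-- the target -/
def tot (m b : ℕ) (es : List Cn) : List Bool := es.flatMap fun e => pad b (tgt m e)

theorem val_flatMap {b : ℕ} (es : List Cn) (g : Cn → List Bool)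
    (h : ∀ e ∈ es, (g e).length = b) :
    val (es.flatMap g) = Nat.ofDigits (2 ^ b) (es.map fun e => val (g e)) := by
  induction es with
  | nil => rfl
  | cons e es ih =>
    rw [List.flatMap_cons, val_append, List.map_cons, Nat.ofDigits_cons, h e (by simp),
      ih fun e' he' => h e' (by simp [he'])]

theorem sum_ofDigits {B : ℕ} (es : List Cn) (s : List Vr) (g : Vr → Cn → ℕ) :
    (s.map fun v => Nat.ofDigits B (es.map fun e => g v e)).sum =
      Nat.ofDigits B (es.map fun e => (s.map fun v => g v e).sum) := by
  induction s with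
  | nil =>
    simp only [List.map_nil, List.sum_nil]
    induction es with
    | nil => rfl
    | cons e es ih => rw [List.map_cons, Nat.ofDigits_cons, ← ih]; simp
  | cons v s ih =>
    rw [List.map_cons, List.sum_cons, ih]
    clear ih
    induction es with
    | nil => rfl
    | cons e es ih =>
      simp only [List.map_cons, Nat.ofDigits_cons, List.sum_cons] at ih ⊢
      rw [← ih]
      ring

/-- bound of the digits -/
structure Bd (m : ℕ) (vs : List Vr) : Prop where
  le : ∀ v ∈ vs, ∀ j, v.2.getD j 0 ≤ m

theorem dig_le {m : ℕ} {v : Vr} (h : ∀ j, v.2.getD j 0 ≤ m) (e : Cn) :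
    val (dig m v e) ≤ 2 ^ m ∧ (dig m v e).length ≤ m + 1 := by
  unfold dig
  by_cases h1 : e.2.1 = 0
  · rw [decide_eq_true h1, cond_true]
    by_cases h2 : v.1 = e.1
    · rw [decide_eq_true h2, cond_true]
      refine ⟨?_, by simp⟩
      simpa [val] using Nat.one_le_two_pow
    · rw [decide_eq_false h2, cond_false]
      simp [val]
  · rw [decide_eq_false h1, cond_false]
    by_cases h2 : v.1 = e.2.2
    · rw [decide_eq_true h2, cond_true, val_pow]
      refine ⟨Nat.pow_le_pow_right (by norm_num) (h 0), ?_⟩
      have := h 0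
      simp only [List.length_append, List.length_replicate, List.length_singleton]
      omega
    · rw [decide_eq_false h2, cond_false]
      by_cases h3 : v.1 = e.1
      · rw [decide_eq_true h3, cond_true]
        have h4 := h e.2.1
        have h5 := val_copow h4
        refine ⟨Nat.le_of_add_right_le h5.le, ?_⟩
        simp only [List.length_append, List.length_replicate]
        omega
      · rw [decide_eq_false h3, cond_false]
        simp [val]

theorem tgt_le (m : ℕ) (e : Cn) : val (tgt m e) ≤ 2 ^ m ∧ (tgt m e).length ≤ m + 1 := by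
  unfold tgt
  by_cases h1 : e.2.1 = 0
  · simp only [h1, decide_true, cond_true]
    refine ⟨?_, by simp⟩
    simpa [val] using Nat.one_le_two_pow
  · simp only [h1, decide_false, cond_false]
    rw [val_pow]
    simp

theorem sum_le_of_sublist {s vs : List Vr} (hs : s.Sublist vs) (g : Vr → ℕ) (C : ℕ)
    (h : ∀ v ∈ vs, g v ≤ C) : (s.map g).sum ≤ vs.length * C := by
  have h1 : (s.map g).sum ≤ (s.map g).length • C := by
    apply List.sum_le_card_nsmul
    intro x hx
    obtain ⟨v, hv, rfl⟩ := List.mem_map.1 hx
    exact h v (hs.subset hv)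
  rw [List.length_map, smul_eq_mul] at h1
  exact h1.trans (Nat.mul_le_mul_right _ hs.length_le)

/-- from vectors to numbers -/
theorem number_iff {m : ℕ} {vs : List Vr} (hv : Bd m vs) (es : List Cn) :
    (∃ s : List (List Bool), s.Sublist (vs.map (num m (vs.length + m + 1) es)) ∧
      (s.map val).sum = val (tot m (vs.length + m + 1) es)) ↔
    ∃ s : List Vr, s.Sublist vs ∧
      ∀ e ∈ es, (s.map fun v => val (dig m v e)).sum = val (tgt m e) := by
  set b := vs.length + m + 1 with hb
  have hB : 1 < 2 ^ b := Nat.one_lt_two_pow (by omega)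
  have hlt : vs.length * 2 ^ m < 2 ^ b := by
    have h1 : vs.length < 2 ^ vs.length := Nat.lt_two_pow_self
    calc vs.length * 2 ^ m < 2 ^ vs.length * 2 ^ m :=
          Nat.mul_lt_mul_of_pos_right h1 (by positivity)
      _ = 2 ^ (vs.length + m) := by rw [pow_add]
      _ ≤ 2 ^ b := Nat.pow_le_pow_right (by norm_num) (by omega)
  have key : ∀ s : List Vr, s.Sublist vs →
      ((s.map fun v => val (num m b es v)).sum = val (tot m b es) ↔
        ∀ e ∈ es, (s.map fun v => val (dig m v e)).sum = val (tgt m e)) := by
    intro s hs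
    have e1 : (s.map fun v => val (num m b es v)) =
        s.map fun v => Nat.ofDigits (2 ^ b) (es.map fun e => val (dig m v e)) := by
      apply List.map_congr_left
      intro v hvs
      have h1 := hv.le v (hs.subset hvs)
      unfold num
      rw [val_flatMap es _ (b := b)]
      · simp only [val_pad]
      · intro e _
        apply length_pad
        have := (dig_le h1 e).2
        omega
    have e2 : val (tot m b es) = Nat.ofDigits (2 ^ b) (es.map fun e => val (tgt m e)) := by
      unfold tot
      rw [val_flatMap es _ (b := b)]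
      · simp only [val_pad]
      · intro e _
        apply length_pad
        have := (tgt_le m e).2
        omega
    rw [e1, e2, sum_ofDigits]
    constructor
    · intro h
      have h2 := Nat.ofDigits_inj_of_len_eq hB (by simp) (by
        intro l hl
        obtain ⟨e, _, rfl⟩ := List.mem_map.1 hl
        refine lt_of_le_of_lt (sum_le_of_sublist hs _ (2 ^ m) fun v hv' => ?_) hlt
        exact (dig_le (hv.le v hv') e).1) (by
        intro l hl
        obtain ⟨e, _, rfl⟩ := List.mem_map.1 hl
        refine lt_of_le_of_lt (tgt_le m e).1 ?_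
        exact Nat.pow_lt_pow_right (by norm_num) (by omega)) h
      exact List.map_inj_left.1 h2
    · intro h
      rw [List.map_congr_left h]
  constructor
  · rintro ⟨s, hs, hsum⟩
    obtain ⟨s', hs', rfl⟩ := List.sublist_map_iff.1 hs
    refine ⟨s', hs', (key s' hs').1 ?_⟩
    rw [← hsum, List.map_map]
    rfl
  · rintro ⟨s, hs, h⟩
    refine ⟨s.map (num m b es), hs.map _, ?_⟩
    rw [List.map_map]
    exact (key s hs).2 h

/-! ### from assignments to vectors -/

/-- the variables -/
def vars (C : List Cl) (tb : Cl → List (List ℕ)) : List Vr :=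
  C.flatMap fun p => (tb p).map fun κ => (p, κ)

/-- the constraints -/
def cons (C : List Cl) (lk : Cl → List Cn) : List Cn :=
  C.flatMap fun p => (p, 0, p) :: lk p

theorem mem_vars {C : List Cl} {tb : Cl → List (List ℕ)} {v : Vr} :
    v ∈ vars C tb ↔ v.1 ∈ C ∧ v.2 ∈ tb v.1 := by
  unfold vars
  simp only [List.mem_flatMap, List.mem_map]
  constructor
  · rintro ⟨p, hp, κ, hκ, rfl⟩
    exact ⟨hp, hκ⟩
  · rintro ⟨h1, h2⟩
    exact ⟨v.1, h1, v.2, h2, rfl⟩

theorem sublist_vars (C : List Cl) {tb : Cl → List (List ℕ)} {κ : Cl → List ℕ}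
    (h : ∀ p ∈ C, κ p ∈ tb p) : (C.map fun p => (p, κ p)).Sublist (vars C tb) := by
  induction C with
  | nil => simp [vars]
  | cons p C ih =>
    have h1 := ih fun q hq => h q (by simp [hq])
    unfold vars at h1 ⊢
    rw [List.map_cons, List.flatMap_cons]
    have h2 : [(p, κ p)].Sublist ((tb p).map fun κ => (p, κ)) := by
      rw [List.singleton_sublist]
      exact List.mem_map.2 ⟨_, h p (by simp), rfl⟩
    exact h2.append h1

theorem sum_split (s : List Vr) {p q : Cl} (hpq : q ≠ p) (g h : Vr → ℕ) :
    (s.map fun v => bif decide (v.1 = q) then g v else bif decide (v.1 = p) then h v else 0).sum =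
      ((s.filter fun v => decide (v.1 = q)).map g).sum +
        ((s.filter fun v => decide (v.1 = p)).map h).sum := by
  induction s with
  | nil => simp
  | cons v s ih =>
    rw [List.map_cons, List.sum_cons, ih]
    by_cases h1 : v.1 = q
    · have h2 : v.1 ≠ p := by rw [h1]; exact hpq
      rw [List.filter_cons_of_pos (by simpa using h1), List.filter_cons_of_neg (by simpa using h2)]
      simp only [h1, decide_true, cond_true, List.map_cons, List.sum_cons]
      ring
    · by_cases h2 : v.1 = p
      · rw [List.filter_cons_of_neg (by simpa using h1),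
          List.filter_cons_of_pos (by simpa using h2), decide_eq_false h1, decide_eq_true h2]
        simp only [cond_true, cond_false, List.map_cons, List.sum_cons]
        ring
      · rw [List.filter_cons_of_neg (by simpa using h1),
          List.filter_cons_of_neg (by simpa using h2)]
        simp only [h1, h2, decide_false, cond_false]
        ring

theorem sum_onehot (s : List Vr) (p : Cl) :
    (s.map fun v => bif decide (v.1 = p) then 1 else 0).sum =
      (s.filter fun v => decide (v.1 = p)).length := by
  induction s with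
  | nil => simp
  | cons v s ih =>
    rw [List.map_cons, List.sum_cons, ih]
    by_cases h1 : v.1 = p
    · rw [List.filter_cons_of_pos (by simpa using h1)]
      simp only [h1, decide_true, cond_true, List.length_cons]
      ring
    · rw [List.filter_cons_of_neg (by simpa using h1)]
      simp only [h1, decide_false, cond_false]
      ring

theorem val_dig_zero (m : ℕ) (v : Vr) (p : Cl) (q : Cl) :
    val (dig m v (p, 0, q)) = bif decide (v.1 = p) then 1 else 0 := by
  unfold dig
  by_cases h : v.1 = p <;> simp [h, val]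

theorem val_dig_link (m : ℕ) (v : Vr) (e : Cn) (he : e.2.1 ≠ 0) :
    val (dig m v e) = bif decide (v.1 = e.2.2) then 2 ^ (v.2.getD 0 0) else
      bif decide (v.1 = e.1) then
        val (List.replicate (v.2.getD e.2.1 0) false ++
          List.replicate (m - v.2.getD e.2.1 0) true) else 0 := by
  unfold dig
  rw [decide_eq_false he, cond_false]
  by_cases h : v.1 = e.2.2
  · rw [decide_eq_true h]
    simp only [cond_true]
    exact val_pow _
  · rw [decide_eq_false h]
    by_cases h' : v.1 = e.1
    · rw [decide_eq_true h']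
      simp only [cond_true, cond_false]
    · rw [decide_eq_false h']
      simp only [cond_false]
      rfl

theorem val_tgt_zero (m : ℕ) (p q : Cl) : val (tgt m (p, 0, q)) = 1 := by
  simp [tgt, val]

theorem val_tgt_link (m : ℕ) (e : Cn) (he : e.2.1 ≠ 0) : val (tgt m e) = 2 ^ m := by
  unfold tgt
  simp only [he, decide_false, cond_false]
  exact val_pow _

/-- the link equation -/
theorem link_iff {m : ℕ} {s : List Vr} {e : Cn} (he : e.2.1 ≠ 0) (hne : e.2.2 ≠ e.1) {x y : Vr}
    (hx : s.filter (fun v => decide (v.1 = e.1)) = [x])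
    (hy : s.filter (fun v => decide (v.1 = e.2.2)) = [y])
    (hm : x.2.getD e.2.1 0 ≤ m) :
    (s.map fun v => val (dig m v e)).sum = val (tgt m e) ↔
      x.2.getD e.2.1 0 = y.2.getD 0 0 := by
  rw [val_tgt_link m e he]
  simp_rw [val_dig_link m _ e he]
  rw [sum_split s hne, hx, hy]
  simp only [List.map_cons, List.map_nil, List.sum_cons, List.sum_nil, Nat.add_zero]
  have h1 := val_copow hm
  constructor
  · intro h
    have h2 : 2 ^ x.2.getD e.2.1 0 = 2 ^ y.2.getD 0 0 := by omega
    exact Nat.pow_right_injective le_rfl h2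
  · intro h
    rw [← h]
    omega

theorem assign_iff {m : ℕ} {C : List Cl} (hC : C.Nodup) {tb : Cl → List (List ℕ)}
    {lk : Cl → List Cn} (hlk : ∀ p ∈ C, ∀ e ∈ lk p, e.1 = p ∧ e.2.1 ≠ 0 ∧ e.2.2 ∈ C ∧ e.2.2 ≠ p)
    (htb : ∀ p ∈ C, ∀ κ ∈ tb p, ∀ j, κ.getD j 0 ≤ m) :
    (∃ s : List Vr, s.Sublist (vars C tb) ∧
      ∀ e ∈ cons C lk, (s.map fun v => val (dig m v e)).sum = val (tgt m e)) ↔
    ∃ κ : Cl → List ℕ, (∀ p ∈ C, κ p ∈ tb p) ∧
      ∀ p ∈ C, ∀ e ∈ lk p, (κ p).getD e.2.1 0 = (κ e.2.2).getD 0 0 := by
  constructor
  · rintro ⟨s, hs, h⟩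
    have h1 : ∀ p ∈ C, ∃ x : Vr, s.filter (fun v => decide (v.1 = p)) = [x] := by
      intro p hp
      have h2 := h (p, 0, p) (List.mem_flatMap.2 ⟨p, hp, by simp⟩)
      rw [val_tgt_zero] at h2
      simp_rw [val_dig_zero] at h2
      rw [sum_onehot] at h2
      exact List.length_eq_one_iff.1 h2
    classical
    choose! x hx using h1
    have hxp : ∀ p ∈ C, (x p).1 = p ∧ (x p).2 ∈ tb p := by
      intro p hp
      have h3 : x p ∈ s.filter (fun v => decide (v.1 = p)) := by rw [hx p hp]; simp
      rw [List.mem_filter] at h3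
      have h4 : (x p).1 = p := by simpa using h3.2
      have h5 := (mem_vars.1 (hs.subset h3.1)).2
      rw [h4] at h5
      exact ⟨h4, h5⟩
    refine ⟨fun p => (x p).2, fun p hp => (hxp p hp).2, ?_⟩
    intro p hp e he
    obtain ⟨h3, h4, h5, h6⟩ := hlk p hp e he
    have h7 := h e (List.mem_flatMap.2 ⟨p, hp, by simp [he]⟩)
    exact (link_iff h4 (by rw [h3]; exact h6) (by rw [h3]; exact hx p hp) (hx _ h5)
      (htb p hp _ (hxp p hp).2 _)).1 h7
  · rintro ⟨κ, hκ, h⟩
    refine ⟨C.map fun p => (p, κ p), sublist_vars C hκ, ?_⟩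
    have hx : ∀ p ∈ C, (C.map fun p => (p, κ p)).filter (fun v => decide (v.1 = p)) =
        [(p, κ p)] := by
      intro p hp
      rw [List.filter_map]
      have h1 : ((fun v : Vr => decide (v.1 = p)) ∘ fun p => (p, κ p)) =
          fun q => decide (q = p) := rfl
      rw [h1, List.filter_eq, List.count_eq_one_of_mem hC hp]
      rfl
    intro e he
    obtain ⟨p, hp, he'⟩ := List.mem_flatMap.1 he
    rcases List.mem_cons.1 he' with rfl | he'
    · rw [val_tgt_zero]
      simp_rw [val_dig_zero]
      rw [sum_onehot, hx p hp]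
      rfl
    · obtain ⟨h3, h4, h5, h6⟩ := hlk p hp e he'
      refine (link_iff h4 (by rw [h3]; exact h6) (by rw [h3]; exact hx p hp) (hx _ h5)
        (htb p hp _ (hκ p hp) _)).2 ?_
      exact h p hp e he'

/-! ### positivity -/

theorem val_flatMap_pos (es : List Cn) (g : Cn → List Bool) (h : ∃ e ∈ es, 0 < val (g e)) :
    0 < val (es.flatMap g) := by
  induction es with
  | nil => simp at h
  | cons e es ih =>
    rw [List.flatMap_cons, val_append]
    obtain ⟨e', he', h'⟩ := h
    rcases List.mem_cons.1 he' with rfl | he'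
    · omega
    · have := ih ⟨e', he', h'⟩
      positivity

theorem num_pos {m b : ℕ} {C : List Cl} {tb : Cl → List (List ℕ)} {lk : Cl → List Cn} {v : Vr}
    (hv : v ∈ vars C tb) : 0 < val (num m b (cons C lk) v) := by
  apply val_flatMap_pos
  refine ⟨(v.1, 0, v.1), List.mem_flatMap.2 ⟨v.1, (mem_vars.1 hv).1, by simp⟩, ?_⟩
  rw [val_pad, val_dig_zero]
  simp

/-! ### grids -/

/-- the cells used -/
def cells (N : ℕ) : List Cl :=
  (List.range N).flatMap fun t => (List.range (N - t)).map fun i => (t, i)

theorem mem_cells {N : ℕ} {p : Cl} : p ∈ cells N ↔ p.1 + p.2 < N := by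
  unfold cells
  simp only [List.mem_flatMap, List.mem_map, List.mem_range]
  constructor
  · rintro ⟨t, ht, i, hi, rfl⟩
    simp only
    omega
  · intro h
    exact ⟨p.1, by omega, p.2, by omega, rfl⟩

theorem nodup_cells (N : ℕ) : (cells N).Nodup := by
  unfold cells
  rw [List.nodup_flatMap]
  refine ⟨fun t _ => List.nodup_range.map fun i j h => (Prod.ext_iff.1 h).2, ?_⟩
  refine List.nodup_range.imp ?_
  intro t t' htt
  show List.Disjoint _ _
  intro x hx hx'
  obtain ⟨i, _, rfl⟩ := List.mem_map.1 hx
  obtain ⟨j, _, hj⟩ := List.mem_map.1 hx'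
  exact htt (Prod.ext_iff.1 hj).1.symm

/-- initial choices -/
def tabI (iniV : ℕ → ℕ → ℕ) (a : ℕ) : List (List ℕ) := [[iniV a 0], [iniV a 1]]

/-- choices in the first column -/
def tab0 (G : GA) : List (List ℕ) :=
  (List.range G.m).flatMap fun a => (List.range G.m).map fun b => [G.d0 a b, a, b]

/-- choices in the other columns -/
def tab1 (G : GA) : List (List ℕ) :=
  (List.range G.m).flatMap fun a => (List.range G.m).flatMap fun b =>
    (List.range G.m).flatMap fun c => (List.range G.m).map fun e => [G.d a b c e, a, b, c, e]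

/-- all choices -/
def tb0 (G : GA) (iniV : ℕ → ℕ → ℕ) (w : List Bool) (p : Cl) : List (List ℕ) :=
  bif decide (p.1 = 0) then
    [tabI iniV 0, tabI iniV 1, tabI iniV 2].getD (Helper4.letters w p.2) []
  else bif decide (p.2 = 0) then tab0 G else tab1 G

/-- choices allowed -/
def tb (G : GA) (iniV : ℕ → ℕ → ℕ) (acc : ℕ → Bool) (N : ℕ) (w : List Bool) (p : Cl) :
    List (List ℕ) :=
  (tb0 G iniV w p).filter fun κ =>
    !decide (p = (N - 1, 0)) || decide (κ.getD 0 0 ∈ (List.range G.m).filter acc)

/-- links -/
def lk (p : Cl) : List Cn :=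
  bif decide (p.1 = 0) then []
  else bif decide (p.2 = 0) then [(p, 1, (p.1 - 1, 0)), (p, 2, (p.1 - 1, 1))]
  else [(p, 1, (p.1 - 1, p.2 - 1)), (p, 2, (p.1 - 1, p.2)), (p, 3, (p.1 - 1, p.2 + 1)),
    (p, 4, (p.1, p.2 - 1))]

theorem lk_ok {N : ℕ} : ∀ p ∈ cells N, ∀ e ∈ lk p,
    e.1 = p ∧ e.2.1 ≠ 0 ∧ e.2.2 ∈ cells N ∧ e.2.2 ≠ p := by
  rintro ⟨t, i⟩ hp e he
  have hp' : t + i < N := mem_cells.1 hp
  unfold lk at he
  by_cases h1 : t = 0
  · simp [h1] at he
  · by_cases h2 : i = 0
    · simp only [h1, h2, decide_true, decide_false, cond_true, cond_false, List.mem_cons,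
        List.not_mem_nil, or_false] at he
      rcases he with rfl | rfl <;>
        · refine ⟨by simp [h2], by simp, mem_cells.2 (by simp only; omega), ?_⟩
          intro h
          have := (Prod.ext_iff.1 h).1
          simp only at this
          omega
    · simp only [h1, h2, decide_true, decide_false, cond_true, cond_false, List.mem_cons,
        List.not_mem_nil, or_false] at he
      rcases he with rfl | rfl | rfl | rfl
      all_goals
        refine ⟨rfl, by simp, mem_cells.2 (by simp only; omega), ?_⟩
        intro h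
        have h3 := (Prod.ext_iff.1 h).1
        have h4 := (Prod.ext_iff.1 h).2
        simp only at h3 h4
        omega

theorem letters_lt (w : List Bool) (i : ℕ) : Helper4.letters w i < 3 := by
  unfold Helper4.letters
  cases hc : (T.code (enc w))[i]? with
  | none => simp
  | some a =>
    have ha := List.mem_of_getElem? hc
    rcases T.code_mem _ a ha with rfl | rfl <;> simp

theorem tb0_zero (G : GA) (iniV : ℕ → ℕ → ℕ) (w : List Bool) (i : ℕ) :
    tb0 G iniV w (0, i) = tabI iniV (Helper4.letters w i) := by
  unfold tb0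
  have h := letters_lt w i
  simp only [decide_true, cond_true]
  generalize Helper4.letters w i = a at h
  interval_cases a <;> rfl

theorem tb0_col (G : GA) (iniV : ℕ → ℕ → ℕ) (w : List Bool) (t : ℕ) :
    tb0 G iniV w (t + 1, 0) = tab0 G := by
  simp [tb0]

theorem tb0_succ (G : GA) (iniV : ℕ → ℕ → ℕ) (w : List Bool) (t i : ℕ) :
    tb0 G iniV w (t + 1, i + 1) = tab1 G := by
  simp [tb0]

theorem mem_tab0 {G : GA} {κ : List ℕ} : κ ∈ tab0 G ↔ ∃ a < G.m, ∃ b < G.m,
    κ = [G.d0 a b, a, b] := by
  unfold tab0
  simp only [List.mem_flatMap, List.mem_map, List.mem_range]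
  constructor
  · rintro ⟨a, ha, b, hb, rfl⟩
    exact ⟨a, ha, b, hb, rfl⟩
  · rintro ⟨a, ha, b, hb, rfl⟩
    exact ⟨a, ha, b, hb, rfl⟩

theorem mem_tab1 {G : GA} {κ : List ℕ} : κ ∈ tab1 G ↔ ∃ a < G.m, ∃ b < G.m, ∃ c < G.m,
    ∃ e < G.m, κ = [G.d a b c e, a, b, c, e] := by
  unfold tab1
  simp only [List.mem_flatMap, List.mem_map, List.mem_range]
  constructor
  · rintro ⟨a, ha, b, hb, c, hc, e, he, rfl⟩
    exact ⟨a, ha, b, hb, c, hc, e, he, rfl⟩
  · rintro ⟨a, ha, b, hb, c, hc, e, he, rfl⟩
    exact ⟨a, ha, b, hb, c, hc, e, he, rfl⟩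

theorem tb_le {G : GA} (hG : G.Closed) {iniV : ℕ → ℕ → ℕ}
    (hini : ∀ a < 3, ∀ c < 2, iniV a c < G.m) (acc : ℕ → Bool) (N : ℕ) (w : List Bool) (p : Cl) :
    ∀ κ ∈ tb G iniV acc N w p, ∀ j, κ.getD j 0 ≤ G.m := by
  intro κ hκ j
  have hκ' := (List.mem_filter.1 hκ).1
  have key : ∀ x ∈ κ, x ≤ G.m := by
    obtain ⟨t, i⟩ := p
    cases t with
    | zero =>
      rw [tb0_zero] at hκ'
      have h3 := letters_lt w i
      simp only [tabI, List.mem_cons, List.not_mem_nil, or_false] at hκ'
      rcases hκ' with rfl | rfl
      · intro x hx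
        simp only [List.mem_cons, List.not_mem_nil, or_false] at hx
        subst hx
        exact (hini _ h3 _ (by norm_num)).le
      · intro x hx
        simp only [List.mem_cons, List.not_mem_nil, or_false] at hx
        subst hx
        exact (hini _ h3 _ (by norm_num)).le
    | succ t =>
      cases i with
      | zero =>
        rw [tb0_col] at hκ'
        obtain ⟨a, ha, b, hb, rfl⟩ := mem_tab0.1 hκ'
        have := hG.1 a ha b hb
        intro x hx
        simp only [List.mem_cons, List.not_mem_nil, or_false] at hx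
        rcases hx with rfl | rfl | rfl <;> omega
      | succ i =>
        rw [tb0_succ] at hκ'
        obtain ⟨a, ha, b, hb, c, hc, e, he, rfl⟩ := mem_tab1.1 hκ'
        have := hG.2 a ha b hb c hc e he
        intro x hx
        simp only [List.mem_cons, List.not_mem_nil, or_false] at hx
        rcases hx with rfl | rfl | rfl | rfl | rfl <;> omega
  rw [List.getD_eq_getElem?_getD]
  cases hc : κ[j]? with
  | none => simp
  | some a => exact key a (List.mem_of_getElem? hc)

open Pool.Agent.Helper69 in
/-- computations of the grid automaton are assignments -/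
theorem grid_iff {G : GA} (hG : G.Closed) {iniV : ℕ → ℕ → ℕ}
    (hini : ∀ a < 3, ∀ c < 2, iniV a c < G.m) (acc : ℕ → Bool) {N : ℕ} (hN : 0 < N)
    (w : List Bool) :
    (∃ κ : Cl → List ℕ, (∀ p ∈ cells N, κ p ∈ tb G iniV acc N w p) ∧
      ∀ p ∈ cells N, ∀ e ∈ lk p, (κ p).getD e.2.1 0 = (κ e.2.2).getD 0 0) ↔
    ∃ c : ℕ → ℕ, (∀ i, c i < 2) ∧
      acc (G.cell (fun i => iniV (Helper4.letters w i) (c i)) (N - 1) 0) = true := by
  constructor
  · rintro ⟨κ, h1, h2⟩
    have h0 : ∀ i, ∃ b, b < 2 ∧ (i < N → κ (0, i) = [iniV (Helper4.letters w i) b]) := by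
      intro i
      by_cases hi : i < N
      · have h3 := (List.mem_filter.1 (h1 (0, i) (mem_cells.2 (by simpa using hi)))).1
        rw [tb0_zero] at h3
        simp only [tabI, List.mem_cons, List.not_mem_nil, or_false] at h3
        rcases h3 with h3 | h3
        · exact ⟨0, by norm_num, fun _ => h3⟩
        · exact ⟨1, by norm_num, fun _ => h3⟩
      · exact ⟨0, by norm_num, fun h => absurd h hi⟩
    choose c hc hc' using h0
    refine ⟨c, hc, ?_⟩
    have key : ∀ t i, t + i < N → (κ (t, i)).getD 0 0 =
        G.cell (fun i => iniV (Helper4.letters w i) (c i)) t i := by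
      intro t
      induction t with
      | zero =>
        intro i hi
        rw [hc' i (by omega), cell_zero]
        rfl
      | succ t iht =>
        intro i
        induction i with
        | zero =>
          intro hi
          have hp : (t + 1, 0) ∈ cells N := mem_cells.2 hi
          have h3 := (List.mem_filter.1 (h1 _ hp)).1
          rw [tb0_col] at h3
          obtain ⟨a, ha, b, hb, hab⟩ := mem_tab0.1 h3
          have h4 := h2 _ hp ((t + 1, 0), 1, (t, 0)) (by simp [lk])
          have h5 := h2 _ hp ((t + 1, 0), 2, (t, 1)) (by simp [lk])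
          simp only [hab, List.getD_cons_succ, List.getD_cons_zero] at h4 h5
          rw [iht 0 (by omega)] at h4
          rw [iht 1 (by omega)] at h5
          rw [hab, cell_succ_zero, List.getD_cons_zero, h4, h5]
        | succ i ihi =>
          intro hi
          have hp : (t + 1, i + 1) ∈ cells N := mem_cells.2 hi
          have h3 := (List.mem_filter.1 (h1 _ hp)).1
          rw [tb0_succ] at h3
          obtain ⟨a, ha, b, hb, e, he, f, hf, hab⟩ := mem_tab1.1 h3
          have h4 := h2 _ hp ((t + 1, i + 1), 1, (t, i)) (by simp [lk])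
          have h5 := h2 _ hp ((t + 1, i + 1), 2, (t, i + 1)) (by simp [lk])
          have h6 := h2 _ hp ((t + 1, i + 1), 3, (t, i + 2)) (by simp [lk])
          have h7 := h2 _ hp ((t + 1, i + 1), 4, (t + 1, i)) (by simp [lk])
          simp only [hab, List.getD_cons_succ, List.getD_cons_zero] at h4 h5 h6 h7
          rw [iht i (by omega)] at h4
          rw [iht (i + 1) (by omega)] at h5
          rw [iht (i + 2) (by omega)] at h6
          rw [ihi (by omega)] at h7
          rw [hab, cell_succ_succ, List.getD_cons_zero, h4, h5, h6, h7]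
    rw [← key (N - 1) 0 (by omega)]
    have h3 := (List.mem_filter.1 (h1 (N - 1, 0) (mem_cells.2 (by simp only; omega)))).2
    simp only [decide_true, Bool.not_true, Bool.false_or, decide_eq_true_eq,
      List.mem_filter] at h3
    exact h3.2
  · rintro ⟨c, hc, hacc⟩
    set W : ℕ → ℕ := fun i => iniV (Helper4.letters w i) (c i) with hW
    have hWlt : ∀ i < N, W i < G.m := fun i _ => hini _ (letters_lt w i) _ (hc i)
    have hlt := cell_lt hG hWlt
    set κ : Cl → List ℕ := fun p => match p with
      | (0, i) => [W i]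
      | (t + 1, 0) => [G.cell W (t + 1) 0, G.cell W t 0, G.cell W t 1]
      | (t + 1, i + 1) => [G.cell W (t + 1) (i + 1), G.cell W t i, G.cell W t (i + 1),
          G.cell W t (i + 2), G.cell W (t + 1) i] with hκ
    have hres : ∀ t i, (κ (t, i)).getD 0 0 = G.cell W t i := by
      intro t i
      cases t with
      | zero => rfl
      | succ t => cases i <;> rfl
    refine ⟨κ, ?_, ?_⟩
    · rintro ⟨t, i⟩ hp
      have hp' : t + i < N := mem_cells.1 hp
      refine List.mem_filter.2 ⟨?_, ?_⟩
      · cases t with
        | zero =>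
          rw [tb0_zero]
          have h3 := hc i
          have h4 : c i = 0 ∨ c i = 1 := by omega
          show [iniV (Helper4.letters w i) (c i)] ∈ _
          rcases h4 with h4 | h4 <;> rw [h4] <;> simp [tabI]
        | succ t =>
          cases i with
          | zero =>
            rw [tb0_col]
            refine mem_tab0.2 ⟨_, hlt t 0 (by omega), _, hlt t 1 (by omega), ?_⟩
            show [G.cell W (t + 1) 0, G.cell W t 0, G.cell W t 1] = _
            rw [cell_succ_zero]
          | succ i =>
            rw [tb0_succ]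
            refine mem_tab1.2 ⟨_, hlt t i (by omega), _, hlt t (i + 1) (by omega), _,
              hlt t (i + 2) (by omega), _, hlt (t + 1) i (by omega), ?_⟩
            show [G.cell W (t + 1) (i + 1), G.cell W t i, G.cell W t (i + 1),
              G.cell W t (i + 2), G.cell W (t + 1) i] = _
            rw [cell_succ_succ]
      · by_cases h : ((t, i) : Cl) = (N - 1, 0)
        · rw [h, hres]
          simp only [decide_true, Bool.not_true, Bool.false_or, decide_eq_true_eq,
            List.mem_filter, List.mem_range]
          exact ⟨hlt (N - 1) 0 (by omega), hacc⟩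
        · rw [decide_eq_false h]
          rfl
    · rintro ⟨t, i⟩ hp e he
      unfold lk at he
      cases t with
      | zero => simp at he
      | succ t =>
        cases i with
        | zero =>
          simp only [Nat.add_eq_zero_iff, one_ne_zero, and_false, decide_false, cond_false,
            decide_true, cond_true, List.mem_cons, List.not_mem_nil, or_false,
            Nat.add_sub_cancel] at he
          rcases he with rfl | rfl <;> rw [hres] <;> rfl
        | succ i =>
          simp only [Nat.add_eq_zero_iff, one_ne_zero, and_false, decide_false, cond_false,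
            List.mem_cons, List.not_mem_nil, or_false, Nat.add_sub_cancel] at he
          rcases he with rfl | rfl | rfl | rfl <;> rw [hres] <;> rfl

/-! ### polynomial time -/

section poly

variable {α : Type} [Enc α]

theorem poly_dig (m : ℕ) {v : α → Vr} {e : α → Cn} (hv : Poly v) (he : Poly e) :
    Poly (fun a => dig m (v a) (e a)) := by
  unfold dig
  fun_prop

theorem poly_tgt (m : ℕ) {e : α → Cn} (he : Poly e) : Poly (fun a => tgt m (e a)) := by
  unfold tgt
  fun_prop

theorem poly_pad {b : α → ℕ} {l : α → List Bool} (hb : Poly b) (hl : Poly l) :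
    Poly (fun a => pad (b a) (l a)) := by
  unfold pad
  fun_prop

theorem poly_num (m : ℕ) {b : α → ℕ} {es : α → List Cn} {v : α → Vr} (hb : Poly b)
    (hes : Poly es) (hv : Poly v) : Poly (fun a => num m (b a) (es a) (v a)) := by
  unfold num
  exact Helper96.Poly.flatMap (h := fun a e => pad (b a) (dig m (v a) e)) hes
    (poly_pad (by fun_prop) (poly_dig m (by fun_prop) (by fun_prop)))

theorem poly_tot (m : ℕ) {b : α → ℕ} {es : α → List Cn} (hb : Poly b)
    (hes : Poly es) : Poly (fun a => tot m (b a) (es a)) := by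
  unfold tot
  exact Helper96.Poly.flatMap (h := fun a e => pad (b a) (tgt m e)) hes
    (poly_pad (by fun_prop) (poly_tgt m (by fun_prop)))

theorem poly_vars {C : α → List Cl} {t : α → Cl → List (List ℕ)} (hC : Poly C)
    (ht : Poly (fun q : α × Cl => t q.1 q.2)) : Poly (fun a => vars (C a) (t a)) := by
  unfold vars
  exact Helper96.Poly.flatMap (h := fun a p => (t a p).map fun κ => (p, κ)) hC
    (Helper96.Poly.map (h := fun (q : α × Cl) κ => (q.2, κ)) ht (by fun_prop))

theorem poly_lk {p : α → Cl} (hp : Poly p) : Poly (fun a => lk (p a)) := by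
  unfold lk
  fun_prop

theorem poly_cons {C : α → List Cl} (hC : Poly C) : Poly (fun a => cons (C a) lk) := by
  unfold cons
  exact Helper96.Poly.flatMap (h := fun _ p => (p, 0, p) :: lk p) hC
    (Helper96.Poly.cons (by fun_prop) (poly_lk (by fun_prop)))

theorem poly_cells {N : α → ℕ} (hN : Poly N) : Poly (fun a => cells (N a)) := by
  unfold cells
  exact Helper96.Poly.flatMap (h := fun a t => (List.range (N a - t)).map fun i => (t, i))
    (by fun_prop) (Helper96.Poly.map (h := fun (q : α × ℕ) i => (q.2, i)) (by fun_prop)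
      (by fun_prop))

theorem poly_letters {w : α → List Bool} {i : α → ℕ} (hw : Poly w) (hi : Poly i) :
    Poly (fun a => Helper4.letters (w a) (i a)) := by
  unfold Helper4.letters
  have h1 : Poly (fun a => T.code (enc (w a))) :=
    Helper96.Poly.code ((Helper96.Poly.toTree _).comp hw)
  exact Helper96.Poly.getD (Helper96.Poly.getElem? hi h1) (Helper96.Poly.const 2)

theorem poly_tb0 (G : GA) (iniV : ℕ → ℕ → ℕ) {w : α → List Bool} {p : α → Cl} (hw : Poly w)
    (hp : Poly p) : Poly (fun a => tb0 G iniV (w a) (p a)) := by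
  have h1 : Poly (fun a => Helper4.letters (w a) (p a).2) := poly_letters hw (by fun_prop)
  unfold tb0
  fun_prop

theorem poly_tb (G : GA) (iniV : ℕ → ℕ → ℕ) (acc : ℕ → Bool) {N : α → ℕ} {w : α → List Bool}
    {p : α → Cl} (hN : Poly N) (hw : Poly w) (hp : Poly p) :
    Poly (fun a => tb G iniV acc (N a) (w a) (p a)) := by
  unfold tb
  refine Helper96.Poly.filter (h := fun a κ =>
    !decide (p a = (N a - 1, 0)) || decide (κ.getD 0 0 ∈ (List.range G.m).filter acc))
    (poly_tb0 G iniV hw hp) ?_
  fun_prop

end poly

end SubSum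

open SubSum in
/-- SUBSET SUM is NP-hard -/
theorem subsetSum_hard {L : Set (List Bool)} (hL : InNP L) :
    ∃ f : List Bool → List (List Bool) × List Bool, Poly f ∧
      (∀ w, ∀ a ∈ (f w).1, 0 < val a) ∧
      ∀ w, w ∈ L ↔ ∃ s : List (List Bool), s.Sublist (f w).1 ∧ (s.map val).sum = val (f w).2 := by
  obtain ⟨R, k, hR, hK⟩ := (Pool.Agent.Helper69.inNP_iff L).1 hL
  obtain ⟨G, iniV, acc, Nf, hG, hini, hNf, hNf', hver⟩ := Pool.Agent.Helper4.exists_verifier hR hK
  set C : List Bool → List Cl := fun w => cells (Nf w) with hC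
  set V : List Bool → List Vr := fun w => vars (C w) (tb G iniV acc (Nf w) w) with hV
  set E : List Bool → List Cn := fun w => cons (C w) lk with hE
  set b : List Bool → ℕ := fun w => (V w).length + G.m + 1 with hb
  have pC : Poly C := poly_cells hNf
  have pV : Poly V := by
    refine poly_vars (t := fun w p => tb G iniV acc (Nf w) w p) pC ?_
    exact poly_tb G iniV acc (hNf.comp (f := fun q : List Bool × Cl => q.1) (by fun_prop))
      (by fun_prop) (by fun_prop)
  have pE : Poly E := poly_cons pC
  have pb : Poly b := by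
    have : Poly (fun w => (V w).length) := Helper96.Poly.length pV
    fun_prop
  refine ⟨fun w => ((V w).map (num G.m (b w) (E w)), tot G.m (b w) (E w)), ?_, ?_, ?_⟩
  · refine Helper96.Poly.prodMk ?_ (poly_tot G.m pb pE)
    refine Helper96.Poly.map (h := fun w v => num G.m (b w) (E w) v) pV ?_
    exact poly_num G.m (pb.comp (f := fun q : List Bool × Vr => q.1) (by fun_prop))
      (pE.comp (f := fun q : List Bool × Vr => q.1) (by fun_prop)) (by fun_prop)
  · intro w a ha
    obtain ⟨v, hv, rfl⟩ := List.mem_map.1 ha
    exact num_pos hv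
  · intro w
    have hN : 0 < Nf w := by have := hNf' w; omega
    have hle := tb_le hG hini acc (Nf w) w
    have hBd : Bd G.m (V w) := ⟨fun v hv j => hle v.1 v.2 (mem_vars.1 hv).2 j⟩
    rw [hver w, ← grid_iff hG hini acc hN w]
    rw [← assign_iff (m := G.m) (nodup_cells (Nf w)) lk_ok (fun p _ => hle p)]
    exact (number_iff hBd (E w)).symm

end Pool.Agent.Helper20.Flip
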